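import Pool.Agent.Q161.OD.Stm
import Pool.Agent.Q251.SX.Fin

set_option autoImplicit false

/-!
# Project OD, job FIN2: the final count
-/

namespace Pool.Agent.Q111.OD

open Polynomial NumberField IsDedekindDomain Finset
open Pool.Agent.Q51.EL Pool.Agent.Q161.SX Pool.Agent.Q161.OD
open Pool.Agent.Q251.SX (eq_of_data exists_L)

universe v

/-- the count -/
theorem count2 (h : ℤ[X]) (L : Type) [Field L] [NumberField L]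
    (A : Type) [Field A] [Algebra ℚ A] (B0 B N : ℕ) (C : ℝ) (hC : 0 < C)
    (T : Fin N → Set (𝓞 L × ℤ)) (hB : B ≠ 0)
    (hD : ∀ (D : ℤ) (M : Type v) [Field M] (S : Sec (Polynomial.X * h) A M), Squarefree D →
      S.Good D B0 → NT h S →
      ∃ k, ∃ p ∈ T k, (∀ l : ℕ, l.Prime → ¬ l ∣ B → ((l : ℤ) ∣ D ↔
          (l : ℤ) ∣ p.2 ∨ ∃ v : HeightOneSpectrum (𝓞 L), Abv v l ∧ p.1 ∈ v.asIdeal)) ∧
        1 ≤ p.2 ∧ (p.2 : ℝ) ≤ D.natAbs ∧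
        ∀ σ : L →+* ℂ, ‖σ (p.1 : L)‖ ≤
          C * ((D.natAbs : ℝ) / p.2) ^ ((1 : ℝ) / Module.finrank ℚ L))
    (X : ℝ)
    (hfin : ∀ k, {p ∈ T k | 1 ≤ p.2 ∧ (p.2 : ℝ) ≤ X ∧
      ∀ σ : L →+* ℂ, ‖σ (p.1 : L)‖ ≤ C * (X / p.2) ^ ((1 : ℝ) / Module.finrank ℚ L)}.Finite) (R : ℝ)
    (hR : ∀ k, (({p ∈ T k | 1 ≤ p.2 ∧ (p.2 : ℝ) ≤ X ∧
      ∀ σ : L →+* ℂ, ‖σ (p.1 : L)‖ ≤ C * (X / p.2) ^ ((1 : ℝ) / Module.finrank ℚ L)}.ncard : ℕ) : ℝ) ≤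
        R) :
    (({D : ℤ | (D.natAbs : ℝ) ≤ X ∧ Squarefree D ∧
      ∃ (M : Type v) (_ : Field M) (S : Sec (Polynomial.X * h) A M),
        S.Good D B0 ∧ NT h S}.ncard : ℕ) : ℝ) ≤
    N * (3 * (B + 1) * R) := by
  classical
  have hsub : {D : ℤ | (D.natAbs : ℝ) ≤ X ∧ Squarefree D ∧
      ∃ (M : Type v) (_ : Field M) (S : Sec (Polynomial.X * h) A M), S.Good D B0 ∧ NT h S} ⊆
      ⋃ k : Fin N, {D : ℤ | (D.natAbs : ℝ) ≤ X ∧ Squarefree D ∧ ∃ p ∈ T k,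
        (∀ l : ℕ, l.Prime → ¬ l ∣ B → ((l : ℤ) ∣ D ↔
          (l : ℤ) ∣ p.2 ∨ ∃ v : HeightOneSpectrum (𝓞 L), Abv v l ∧ p.1 ∈ v.asIdeal)) ∧
        1 ≤ p.2 ∧ (p.2 : ℝ) ≤ X ∧
        ∀ σ : L →+* ℂ, ‖σ (p.1 : L)‖ ≤ C * (X / p.2) ^ ((1 : ℝ) / Module.finrank ℚ L)} := by
    rintro D ⟨h1, h2, M, _, S, h3, h3'⟩
    obtain ⟨k, p, hp, h4, h5, h6, h7⟩ := hD D M S h2 h3 h3'
    rw [Set.mem_iUnion]
    refine ⟨k, h1, h2, p, hp, h4, h5, h6.trans h1, fun σ => (h7 σ).trans ?_⟩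
    have hp0 : (0 : ℝ) < (p.2 : ℝ) := by
      have : (1 : ℝ) ≤ (p.2 : ℝ) := by exact_mod_cast h5
      linarith
    refine mul_le_mul_of_nonneg_left ?_ hC.le
    apply Real.rpow_le_rpow (by positivity) _ (by positivity)
    exact div_le_div_of_nonneg_right h1 hp0.le
  have hE : ∀ k : Fin N, {D : ℤ | (D.natAbs : ℝ) ≤ X ∧ Squarefree D ∧ ∃ p ∈ T k,
        (∀ l : ℕ, l.Prime → ¬ l ∣ B → ((l : ℤ) ∣ D ↔
          (l : ℤ) ∣ p.2 ∨ ∃ v : HeightOneSpectrum (𝓞 L), Abv v l ∧ p.1 ∈ v.asIdeal)) ∧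
        1 ≤ p.2 ∧ (p.2 : ℝ) ≤ X ∧
        ∀ σ : L →+* ℂ, ‖σ (p.1 : L)‖ ≤ C * (X / p.2) ^ ((1 : ℝ) / Module.finrank ℚ L)}.Finite ∧
      (({D : ℤ | (D.natAbs : ℝ) ≤ X ∧ Squarefree D ∧ ∃ p ∈ T k,
        (∀ l : ℕ, l.Prime → ¬ l ∣ B → ((l : ℤ) ∣ D ↔
          (l : ℤ) ∣ p.2 ∨ ∃ v : HeightOneSpectrum (𝓞 L), Abv v l ∧ p.1 ∈ v.asIdeal)) ∧
        1 ≤ p.2 ∧ (p.2 : ℝ) ≤ X ∧
        ∀ σ : L →+* ℂ, ‖σ (p.1 : L)‖ ≤
          C * (X / p.2) ^ ((1 : ℝ) / Module.finrank ℚ L)}.ncard : ℕ) : ℝ) ≤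
        3 * (B + 1) * R := by
    intro k
    obtain ⟨W, hWdef⟩ : ∃ W : Set (𝓞 L × ℤ), W = {p ∈ T k | 1 ≤ p.2 ∧ (p.2 : ℝ) ≤ X ∧
      ∀ σ : L →+* ℂ, ‖σ (p.1 : L)‖ ≤ C * (X / p.2) ^ ((1 : ℝ) / Module.finrank ℚ L)} := ⟨_, rfl⟩
    have hWfin := hfin k
    have hWR := hR k
    rw [← hWdef] at hWfin hWR
    obtain ⟨E, hEdef⟩ : ∃ E : Set ℤ, E = {D : ℤ | (D.natAbs : ℝ) ≤ X ∧ Squarefree D ∧ ∃ p ∈ T k,
        (∀ l : ℕ, l.Prime → ¬ l ∣ B → ((l : ℤ) ∣ D ↔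
          (l : ℤ) ∣ p.2 ∨ ∃ v : HeightOneSpectrum (𝓞 L), Abv v l ∧ p.1 ∈ v.asIdeal)) ∧
        1 ≤ p.2 ∧ (p.2 : ℝ) ≤ X ∧
        ∀ σ : L →+* ℂ, ‖σ (p.1 : L)‖ ≤ C * (X / p.2) ^ ((1 : ℝ) / Module.finrank ℚ L)} := ⟨_, rfl⟩
    rw [← hEdef]
    have hch : ∀ D : ℤ, ∃ p : 𝓞 L × ℤ, D ∈ E → (p ∈ W ∧
        (∀ l : ℕ, l.Prime → ¬ l ∣ B → ((l : ℤ) ∣ D ↔
          (l : ℤ) ∣ p.2 ∨ ∃ v : HeightOneSpectrum (𝓞 L), Abv v l ∧ p.1 ∈ v.asIdeal))) := by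
      intro D
      by_cases hDE : D ∈ E
      · have h' := hDE
        rw [hEdef] at h'
        obtain ⟨_, _, p, h1, h2, h3⟩ := h'
        refine ⟨p, fun _ => ⟨?_, h2⟩⟩
        rw [hWdef]
        exact ⟨h1, h3⟩
      · exact ⟨(0, 0), fun h' => absurd h' hDE⟩
    choose a ha using hch
    have hmaps : ∀ D ∈ E, (Int.sign D, Nat.gcd D.natAbs B, a D) ∈
        ((({-1, 0, 1} : Finset ℤ) : Set ℤ) ×ˢ (((Finset.range (B + 1) : Finset ℕ) : Set ℕ) ×ˢ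
          W)) := by
      intro D hDE
      refine ⟨?_, ?_, (ha D hDE).1⟩
      · rcases lt_trichotomy D 0 with h | h | h
        · simp [Int.sign_eq_neg_one_of_neg h]
        · simp [h]
        · simp [Int.sign_eq_one_of_pos h]
      · simp only [Finset.coe_range, Set.mem_Iio]
        have := Nat.gcd_le_right D.natAbs (Nat.pos_of_ne_zero hB)
        omega
    have hinj : Set.InjOn (fun D : ℤ => (Int.sign D, Nat.gcd D.natAbs B, a D)) E := by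
      intro D hDE D' hDE' h
      simp only [Prod.mk.injEq] at h
      have e1 : Squarefree D := by rw [hEdef] at hDE; exact hDE.2.1
      have e2 : Squarefree D' := by rw [hEdef] at hDE'; exact hDE'.2.1
      refine eq_of_data (B := B) e1 e2 h.1 h.2.1 ?_
      intro l hl hlB
      have h3 : a D = a D' := h.2.2
      rw [(ha D hDE).2 l hl hlB, (ha D' hDE').2 l hl hlB, h3]
    have hfinT : ((({-1, 0, 1} : Finset ℤ) : Set ℤ) ×ˢ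
        (((Finset.range (B + 1) : Finset ℕ) : Set ℕ) ×ˢ W)).Finite :=
      (Finset.finite_toSet _).prod ((Finset.finite_toSet _).prod hWfin)
    refine ⟨Set.Finite.of_injOn (fun D hD' => hmaps D hD') hinj hfinT, ?_⟩
    have hcard := Set.ncard_le_ncard_of_injOn (fun D : ℤ => (Int.sign D, Nat.gcd D.natAbs B, a D))
      (fun D hD' => hmaps D hD') hinj hfinT
    rw [Set.ncard_prod, Set.ncard_prod, Set.ncard_coe_finset, Set.ncard_coe_finset,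
      Finset.card_range] at hcard
    have h3 : ({-1, 0, 1} : Finset ℤ).card = 3 := by decide
    rw [h3] at hcard
    have hcard' : ((E.ncard : ℕ) : ℝ) ≤ ((3 * ((B + 1) * W.ncard) : ℕ) : ℝ) := by
      exact_mod_cast hcard
    refine hcard'.trans ?_
    push_cast
    rw [← mul_assoc]
    exact mul_le_mul_of_nonneg_left hWR (by positivity)
  have h1 := Set.ncard_le_ncard hsub (Set.finite_iUnion fun k => (hE k).1)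
  have h2 := Set.ncard_iUnion_le_of_fintype (fun k : Fin N => {D : ℤ | (D.natAbs : ℝ) ≤ X ∧
        Squarefree D ∧ ∃ p ∈ T k,
        (∀ l : ℕ, l.Prime → ¬ l ∣ B → ((l : ℤ) ∣ D ↔
          (l : ℤ) ∣ p.2 ∨ ∃ v : HeightOneSpectrum (𝓞 L), Abv v l ∧ p.1 ∈ v.asIdeal)) ∧
        1 ≤ p.2 ∧ (p.2 : ℝ) ≤ X ∧
        ∀ σ : L →+* ℂ, ‖σ (p.1 : L)‖ ≤ C * (X / p.2) ^ ((1 : ℝ) / Module.finrank ℚ L)})
  have h3 := h1.trans h2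
  have h4 : (({D : ℤ | (D.natAbs : ℝ) ≤ X ∧ Squarefree D ∧
      ∃ (M : Type v) (_ : Field M) (S : Sec (Polynomial.X * h) A M),
        S.Good D B0 ∧ NT h S}.ncard : ℕ) : ℝ) ≤
      ∑ k : Fin N, (({D : ℤ | (D.natAbs : ℝ) ≤ X ∧ Squarefree D ∧ ∃ p ∈ T k,
        (∀ l : ℕ, l.Prime → ¬ l ∣ B → ((l : ℤ) ∣ D ↔
          (l : ℤ) ∣ p.2 ∨ ∃ v : HeightOneSpectrum (𝓞 L), Abv v l ∧ p.1 ∈ v.asIdeal)) ∧
        1 ≤ p.2 ∧ (p.2 : ℝ) ≤ X ∧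
        ∀ σ : L →+* ℂ, ‖σ (p.1 : L)‖ ≤
          C * (X / p.2) ^ ((1 : ℝ) / Module.finrank ℚ L)}.ncard : ℕ) : ℝ) := by exact_mod_cast h3
  refine h4.trans ((Finset.sum_le_sum fun k _ => (hE k).2).trans ?_)
  rw [Finset.sum_const, Finset.card_univ, Fintype.card_fin, nsmul_eq_mul]

theorem fin2 : S_AR2.{v} → S_CT → S_FIN2.{v} := by
  intro hAR hCT h hf h0 h5 hodd A _ _ _ B0 hB0 ε hε
  obtain ⟨L, i1, i2, θ, hset⟩ := exists_L h hf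
  obtain ⟨B, C, N, T, hB, hC, hTy, hTp, hD⟩ := hAR h L θ hset h0 (by omega) hodd A B0 hB0
  have hK : (0 : ℝ) < N * (3 * (B + 1)) + 1 := by positivity
  obtain ⟨δ, hδ⟩ : ∃ δ : ℝ, δ = ε / (N * (3 * (B + 1)) + 1) := ⟨_, rfl⟩
  have hδ0 : 0 < δ := by
    rw [hδ]
    positivity
  have hct : ∀ k, ∃ X0 : ℝ, ∀ X : ℝ, X0 ≤ X →
      {p ∈ T k | 1 ≤ p.2 ∧ (p.2 : ℝ) ≤ X ∧
        ∀ σ : L →+* ℂ, ‖σ (p.1 : L)‖ ≤ C * (X / p.2) ^ ((1 : ℝ) / Module.finrank ℚ L)}.Finite ∧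
      (({p ∈ T k | 1 ≤ p.2 ∧ (p.2 : ℝ) ≤ X ∧
        ∀ σ : L →+* ℂ, ‖σ (p.1 : L)‖ ≤
          C * (X / p.2) ^ ((1 : ℝ) / Module.finrank ℚ L)}.ncard : ℕ) : ℝ) ≤ δ * X := fun k =>
    hCT L (by rw [hset.deg]; omega) B C (T k) hB hC (hTy k) (hTp k) δ hδ0
  choose X0 hX0 using hct
  refine ⟨∑ k, |X0 k|, ?_⟩
  intro X hX
  have hXk : ∀ k, X0 k ≤ X := fun k =>
    (le_abs_self _).trans ((Finset.single_le_sum (f := fun k => |X0 k|)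
      (fun i _ => abs_nonneg _) (Finset.mem_univ k)).trans hX)
  have hXnn : 0 ≤ X := (Finset.sum_nonneg fun i _ => abs_nonneg _).trans hX
  have hcount := count2.{v} h L A B0 B N C hC T hB hD X (fun k => (hX0 k X (hXk k)).1) (δ * X)
    (fun k => (hX0 k X (hXk k)).2)
  refine hcount.trans ?_
  have e : (N : ℝ) * (3 * (B + 1) * (δ * X)) = (N * (3 * (B + 1)) * δ) * X := by ring
  rw [e]
  refine mul_le_mul_of_nonneg_right ?_ hXnn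
  rw [hδ, mul_div_assoc', div_le_iff₀ hK]
  nlinarith

end Pool.Agent.Q111.OD
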