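import Pool.Agent.Q40.OD.Stm1

/-! # Project OD, job OD-10: the local module at a prime with nondegenerate singular points -/

set_option autoImplicit false

open scoped Pointwise

namespace Pool.Agent.Q111.OD

open Pool.Agent.H918R2.Quad Pool.Agent.TH214.RM Pool.Agent.H945R2.E Pool.Agent.W418 MvPolynomial
open Pool.Agent.Q40.OD

section gens

theorem prod_mem_pow {O F : Type} [CommRing O] [Field F] [Algebra O F] (S : Submodule O F)
    (r : ℕ) (g : Fin r → F) (hg : ∀ j, g j ∈ S) : ∏ j, g j ∈ S ^ r := by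
  induction r with
  | zero =>
    rw [pow_zero, Finset.univ_eq_empty, Finset.prod_empty]
    exact Submodule.mem_one.mpr ⟨1, map_one _⟩
  | succ r ih =>
    rw [Fin.prod_univ_succ, pow_succ']
    exact Submodule.mul_mem_mul (hg 0) (ih _ fun j => hg j.succ)

theorem aeval_mem_span {O F ι : Type} [CommRing O] [Field F] [Algebra O F] (x : ι → F)
    (P : MvPolynomial ι O) (e : ℕ) (hP : P.IsHomogeneous e) :
    aeval x P ∈ Submodule.span O (Set.range x ^ e) := by
  classical
  rw [aeval_def, eval₂_eq]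
  refine Submodule.sum_mem _ fun s hs => ?_
  have h1 : s.degree = e := by
    by_contra hne
    exact (mem_support_iff.1 hs) (hP.coeff_eq_zero hne)
  rw [← Algebra.smul_def]
  refine Submodule.smul_mem _ _ (Submodule.subset_span ?_)
  have h2 : ∏ i ∈ s.support, x i ^ s i ∈ ∏ i ∈ s.support, Set.range x ^ s i :=
    Set.finsetProd_mem_finsetProd _ _ _ fun i _ => Set.pow_mem_pow ⟨i, rfl⟩
  rw [Finset.prod_pow_eq_pow_sum] at h2
  rw [← h1]
  exact h2

variable {O R F ι : Type} [CommRing O] [CommRing R] [Field F] [Algebra O R] [Algebra O F]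
  [Algebra R F] [IsScalarTower O R F]

theorem jset_eq (π : O) (G : MvPolynomial ι O) (d : ℕ) (x : ι → F) (j : ℕ) :
    Jset (algebraMap O R π) (map (algebraMap O R) G) d x j = Jset π G d x j := by
  unfold Jset
  have h1 : ∀ a, aeval x (pderiv a (map (algebraMap O R) G)) = aeval x (pderiv a G) := by
    intro a
    rw [pderiv_map, aeval_map_algebraMap]
  simp only [h1, ← IsScalarTower.algebraMap_apply]

theorem gens_eq (π : O) (G : MvPolynomial ι O) (d : ℕ) (x : ι → F) (r D : ℕ) :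
    Gens (algebraMap O R π) (map (algebraMap O R) G) d x r D = Gens π G d x r D := by
  unfold Gens
  simp only [jset_eq]

theorem gens_mem_span (π : O) (G : MvPolynomial ι O) (d : ℕ) (hGd : G.IsHomogeneous d)
    (x : ι → F) (r D : ℕ) (y : F) (hy : y ∈ Gens π G d x r D) :
    y ∈ Submodule.span O (Set.range x ^ (D + r * (d - 1))) := by
  obtain ⟨m, hm, g, hg, rfl⟩ := hy
  have h1 : ∀ j, g j ∈ Submodule.span O (Set.range x ^ (d - 1)) := by
    intro j
    rcases hg j with ⟨a, ha⟩ | ⟨z, hz, hzg⟩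
    · rw [← ha]
      exact aeval_mem_span x _ _ hGd.pderiv
    · rw [← hzg]
      change algebraMap O F π ^ ((j : ℕ) + 1) * z ∈ _
      rw [← map_pow, ← Algebra.smul_def]
      exact Submodule.smul_mem _ _ (Submodule.subset_span hz)
  have h2 := prod_mem_pow _ r g h1
  rw [Submodule.span_pow, ← pow_mul, mul_comm (d - 1) r] at h2
  rw [pow_add, ← Submodule.span_mul_span]
  exact Submodule.mul_mem_mul (Submodule.subset_span hm) h2

theorem pow_mul_mem_gens (π : O) (G : MvPolynomial ι O) (d : ℕ) (x : ι → F) (r D : ℕ) (y : F)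
    (hy : y ∈ Set.range x ^ (D + r * (d - 1))) :
    algebraMap O F π ^ (∑ j : Fin r, ((j : ℕ) + 1)) * y ∈ Gens π G d x r D := by
  rw [pow_add, Set.mem_mul] at hy
  obtain ⟨m, hm, z, hz, rfl⟩ := hy
  rw [mul_comm r, pow_mul, Set.mem_pow] at hz
  obtain ⟨φ, hφ⟩ := hz
  refine ⟨m, hm, fun j => algebraMap O F π ^ ((j : ℕ) + 1) * (φ j : F),
    fun j => Or.inr ⟨φ j, (φ j).2, rfl⟩, ?_⟩
  rw [← hφ, List.prod_ofFn, Finset.prod_mul_distrib, Finset.prod_pow_eq_pow_sum]
  ring

end gens

theorem nondeg_loc {O R ι : Type} [CommRing O] [CommRing R] [Algebra O R] [Fintype ι]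
    [DecidableEq ι] (𝔭 : Ideal O) [𝔭.IsPrime] [IsLocalization.AtPrime R 𝔭]
    (G : MvPolynomial ι O) (h : Nondeg 𝔭 G)
    (s : ι) (Q : Ideal (MvPolynomial {j : ι // j ≠ s} R)) (hQ : Q.IsPrime)
    (hG : deh s (map (algebraMap O R) G) ∈ Q) (hCQ : ∀ r : R, C r ∈ Q ↔ ¬ IsUnit r)
    (hp : ∀ j, pderiv j (deh s (map (algebraMap O R) G)) ∈ Q) :
    (Hess (deh s (map (algebraMap O R) G))).det ∉ Q := by
  have hdeh : map (algebraMap O R) (deh s G) = deh s (map (algebraMap O R) G) := map_deh _ _ _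
  have hC : ∀ r : O, C r ∈ Q.comap (map (algebraMap O R)) ↔ r ∈ 𝔭 := by
    intro r
    rw [Ideal.mem_comap, map_C, hCQ, IsLocalization.AtPrime.isUnit_to_map_iff R 𝔭 r]
    simp
  have h1 := h s (Q.comap (map (algebraMap O R))) (Ideal.comap_isPrime _ _) hC (by
    rw [Ideal.mem_comap, hdeh]
    exact hG) (by
    intro j
    rw [Ideal.mem_comap, ← pderiv_map, hdeh]
    exact hp j)
  intro hcon
  apply h1
  rw [Ideal.mem_comap]
  have h2 : map (algebraMap O R) (Hess (deh s G)).det =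
      ((Hess (deh s G)).map (map (algebraMap O R))).det := RingHom.map_det _ _
  have h3 : (Hess (deh s G)).map (map (algebraMap O R)) =
      Hess (deh s (map (algebraMap O R) G)) := by
    ext1 a b
    change map (algebraMap O R) (pderiv a (pderiv b (deh s G))) =
      pderiv a (pderiv b (deh s (map (algebraMap O R) G)))
    rw [← pderiv_map, ← pderiv_map, hdeh]
  rw [h2, h3]
  exact hcon

theorem locMod_of_nondeg (h8 : S_OD8) (h9 : S_OD9) {O K F : Type} [CommRing O]
    [IsDedekindDomain O] [Field K] [Algebra O K]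
    [IsFractionRing O K] [Field F] [Algebra K F] [Algebra O F] [IsScalarTower O K F]
    (𝔭 : Ideal O) [h𝔭 : 𝔭.IsPrime] (h0 : 𝔭 ≠ ⊥) {n : ℕ}
    (G : MvPolynomial (Fin (n + 2)) O)
    (hG0 : G ≠ 0) (d : ℕ) (hd : 2 ≤ d) (hGd : G.IsHomogeneous d) (hnd : Nondeg 𝔭 G)
    (hsm : Smooth (map (algebraMap O K) G))
    (x : Fin (n + 2) → F) (hx0 : x 0 = 1)
    (hgen : IntermediateField.adjoin K (Set.range x) = ⊤)
    (b : Fin n → F) (htb : IsTranscendenceBasis K b)
    (x' : Fin (n + 2) → F) (u u' : Fin (n + 2) → Fin (n + 2) → K)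
    (hu : ∀ i, x i = ∑ j, algebraMap K F (u i j) * x' j)
    (hu' : ∀ i, x' i = ∑ j, algebraMap K F (u' i j) * x j) (hrel : aeval x' G = 0) :
    LocMod 𝔭 x := by
  classical
  refine locMod_lin (K := K) 𝔭 h0 x x' ?_ ?_ ?_
  · intro i
    rw [hu']
    refine Submodule.sum_mem _ fun j _ => ?_
    rw [← Algebra.smul_def]
    exact Submodule.smul_mem _ _ (Submodule.subset_span ⟨j, rfl⟩)
  · intro i
    rw [hu]
    refine Submodule.sum_mem _ fun j _ => ?_
    rw [← Algebra.smul_def]
    exact Submodule.smul_mem _ _ (Submodule.subset_span ⟨j, rfl⟩)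
  have h1𝔭 : (1 : O) ∉ 𝔭 := (Ideal.ne_top_iff_one 𝔭).1 Ideal.IsPrime.ne_top'
  have hmul : ∀ s t : O, s ∉ 𝔭 → t ∉ 𝔭 → s * t ∉ 𝔭 := fun s t hs ht h =>
    (Ideal.IsPrime.mem_or_mem ‹𝔭.IsPrime› h).elim hs ht
  let R := Localization.subalgebra.ofField K 𝔭.primeCompl 𝔭.primeCompl_le_nonZeroDivisors
  have : IsLocalization.AtPrime R 𝔭 := Localization.subalgebra.isLocalization_ofField K _ _
  have : IsFractionRing R K := Localization.subalgebra.isFractionRing_ofField K _ _
  have : IsDiscreteValuationRing R :=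
    IsLocalization.AtPrime.isDiscreteValuationRing_of_dedekind_domain O h0 R
  have : IsScalarTower O R F := IsScalarTower.of_algebraMap_eq fun r => by
    rw [IsScalarTower.algebraMap_apply O K F]; rfl
  have : IsScalarTower R K F := IsScalarTower.of_algebraMap_eq fun r => rfl
  have hinjOR : Function.Injective (algebraMap O R) :=
    IsLocalization.injective R 𝔭.primeCompl_le_nonZeroDivisors
  have hinj : Function.Injective (algebraMap R K) := IsFractionRing.injective R K
  have hinjRF : Function.Injective (algebraMap R F) := by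
    rw [IsScalarTower.algebraMap_eq R K F]
    exact (algebraMap K F).injective.comp hinj
  -- the uniformizer
  obtain ⟨ϖ, hϖ⟩ := IsDiscreteValuationRing.exists_irreducible R
  obtain ⟨⟨π, t⟩, hπt⟩ := IsLocalization.surj 𝔭.primeCompl ϖ
  have hπ : Irreducible (algebraMap O R π) := by
    change ϖ * algebraMap O R t = algebraMap O R π at hπt
    rw [← hπt]
    exact (irreducible_mul_isUnit (IsLocalization.map_units R t)).mpr hϖ
  have hπ0 : π ≠ 0 := by
    rintro rfl
    exact hπ.ne_zero (map_zero _)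
  have hsm' : Smooth (map (algebraMap R K) (map (algebraMap O R) G)) := by
    rw [map_map]
    exact hsm
  obtain ⟨N, hN⟩ := h9 (algebraMap O R π) hπ (map (algebraMap O R) G) d (hGd.map _) hsm'
  have hrel' : aeval x' (map (algebraMap O R) G) = 0 := by
    rw [aeval_map_algebraMap, hrel]
  have hind : ∀ s, x' s ≠ 0 → ∃ j₀ : {i : Fin (n + 2) // i ≠ s},
      AlgebraicIndependent R
        (fun i : {i : {i : Fin (n + 2) // i ≠ s} // i ≠ j₀} => x' i / x' s) := by
    intro s hs
    obtain ⟨j₀, hj₀⟩ := hind_of (K := K) (ι := Fin (n + 2)) (by simp) x hx0 hgen b htb x' u hu s hs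
    exact ⟨j₀, hj₀.restrictScalars hinj⟩
  have hG0' : map (algebraMap O R) G ≠ 0 := fun h =>
    hG0 (map_injective _ hinjOR (by rw [h, map_zero]))
  refine ⟨1 + N * (d - 1), fun D hD => ?_⟩
  obtain ⟨D', rfl⟩ : ∃ D', D = D' + N * (d - 1) := ⟨D - N * (d - 1), by omega⟩
  have hD' : 1 ≤ D' := by omega
  set N₀ : Submodule O F := Submodule.span O (Set.range x' ^ (D' + N * (d - 1))) with hN₀
  set T : Set F := Gens π G d x' N D' with hT
  have hTN : ∀ y ∈ Submodule.span O T, y ∈ N₀ := by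
    intro y hy
    refine (Submodule.span_le.mpr ?_) hy
    intro z hz
    exact gens_mem_span π G d hGd x' N D' z hz
  let P : Submodule O F :=
    { carrier := {y | y ∈ N₀ ∧ ∃ s : O, s ∉ 𝔭 ∧ s • y ∈ Submodule.span O T}
      zero_mem' := ⟨N₀.zero_mem, 1, h1𝔭, by rw [smul_zero]; exact Submodule.zero_mem _⟩
      add_mem' := by
        rintro y z ⟨hy, s, hs, hsy⟩ ⟨hz, t, ht, htz⟩
        refine ⟨N₀.add_mem hy hz, s * t, hmul s t hs ht, ?_⟩
        rw [smul_add]
        apply Submodule.add_mem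
        · rw [mul_comm, mul_smul]
          exact Submodule.smul_mem _ _ hsy
        · rw [mul_smul]
          exact Submodule.smul_mem _ _ htz
      smul_mem' := by
        rintro r y ⟨hy, s, hs, hsy⟩
        refine ⟨N₀.smul_mem r hy, s, hs, ?_⟩
        rw [smul_comm s r y]
        exact Submodule.smul_mem _ _ hsy }
  have hPmem : ∀ y, y ∈ P ↔ y ∈ N₀ ∧ ∃ s : O, s ∉ 𝔭 ∧ s • y ∈ Submodule.span O T :=
    fun y => Iff.rfl
  refine ⟨P, ?_, ?_, ?_⟩
  · intro y hy
    exact ⟨1, h1𝔭, by rw [one_smul]; exact hy.1⟩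
  · set E : ℕ := ∑ j : Fin N, ((j : ℕ) + 1) with hE
    obtain ⟨k, hk⟩ := exists_pow_dvd 𝔭 h0 (π ^ E) (pow_ne_zero _ hπ0) 0
    refine ⟨k, fun c hc y hy => ?_⟩
    obtain ⟨s, hs, a, -, hsc⟩ := hk c hc
    refine ⟨N₀.smul_mem _ hy, s, hs, ?_⟩
    rw [smul_smul, hsc, mul_comm, mul_smul]
    apply Submodule.smul_mem
    clear hc hsc
    rw [hN₀] at hy
    induction hy using Submodule.span_induction with
    | mem y hy =>
      apply Submodule.subset_span
      rw [Algebra.smul_def, map_pow]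
      exact pow_mul_mem_gens π G d x' N D' y hy
    | zero => rw [smul_zero]; exact Submodule.zero_mem _
    | add y z _ _ hy hz => rw [smul_add]; exact Submodule.add_mem _ hy hz
    | smul r y _ hy => rw [smul_comm]; exact Submodule.smul_mem _ _ hy
  · intro M hMP hPM f hfM hf q hqp hq
    have hMG : ∀ y ∈ M, y ∈ Submodule.span R T := by
      intro y hy
      obtain ⟨_, s, hs, hsy⟩ := (hPmem y).1 (hMP hy)
      have h3 : s • y ∈ Submodule.span R T := Submodule.span_subset_span O R _ hsy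
      obtain ⟨w, hw⟩ := IsLocalization.map_units R (⟨s, hs⟩ : 𝔭.primeCompl)
      have h4 : y = ((w⁻¹ : Rˣ) : R) • (s • y) := by
        have h5 : s • y = (w : R) • y := by
          rw [hw, Algebra.smul_def, Algebra.smul_def, ← IsScalarTower.algebraMap_apply]
        rw [h5, smul_smul, Units.inv_mul, one_smul]
      rw [h4]
      exact Submodule.smul_mem _ _ h3
    have hGM : ∀ y ∈ Submodule.span R T, ∃ s, s ∉ 𝔭 ∧ s • y ∈ M := by
      intro y hy
      obtain ⟨s, hs, hsy⟩ := clear_denom 𝔭 T y hy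
      have h3 : s • y ∈ P := ⟨hTN _ hsy, 1, h1𝔭, by rw [one_smul]; exact hsy⟩
      obtain ⟨t, ht, hty⟩ := hPM _ h3
      refine ⟨t * s, hmul _ _ ht hs, ?_⟩
      rw [mul_smul]
      exact hty
    obtain ⟨𝒪, hloc, hR, hRU, hloc2, hG, hreg⟩ :=
      transfer (R := R) 𝔭 M T hMG hGM f q hq
    apply hreg
    have hTeq : Gens (algebraMap O R π) (map (algebraMap O R) G) d x' N D' = T :=
      gens_eq π G d x' N D'
    refine h8 𝒪 hloc hR hRU hinjRF (algebraMap O R π) hπ (map (algebraMap O R) G) hG0' d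
      (by omega) (hGd.map _) ?_ x' hrel' hind N hN N D' le_rfl hD' f hf ?_ ?_ ?_
    · intro s Q hQ hGQ hCQ hpQ
      exact nondeg_loc 𝔭 G hnd s Q hQ hGQ hCQ hpQ
    · rw [hTeq]
      exact hMG f hfM
    · rw [hTeq]
      exact hG
    · rw [hTeq]
      exact hloc2

theorem s_od10 (h8 : S_OD8) (h9 : S_OD9) : S_OD10 := by
  intro O K F _ _ _ _ _ _ _ _ _ 𝔭 _ h0 n G hG0 d hd hGd hnd hsm x hx0 hgen b htb x' u u' hu hu'
    hrel
  exact locMod_of_nondeg h8 h9 𝔭 h0 G hG0 d hd hGd hnd hsm x hx0 hgen b htb x' u u' hu hu' hrel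

end Pool.Agent.Q111.OD
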