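import Pool.Agent.Q40.OD.Stm1

/-! # Project OD, jobs OD-1 and OD-2: the Jacobian criterion at a point -/

set_option autoImplicit false

namespace Pool.Agent.Q111.OD

open Pool.Agent.H918R2.Quad MvPolynomial

/-- Jacobian criterion at a point over a field. -/
theorem jac {κ σ : Type} [Field κ] [Fintype σ] [DecidableEq σ] (D : σ → MvPolynomial σ κ)
    (Q : Ideal (MvPolynomial σ κ)) [Q.IsPrime] (hD : ∀ a, D a ∈ Q)
    (hJ : (Matrix.of fun a b => pderiv a (D b)).det ∉ Q) :
    (∀ x ∈ Q, ∃ c, c ∉ Q ∧ c * x ∈ Ideal.span (Set.range D)) ∧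
      ((Fintype.card σ : ℕ) : ℕ∞) ≤ Q.height := by
  classical
  set n := Fintype.card σ with hn
  obtain ⟨G, hG, hcard, hgen⟩ := exists_local_gens Q
  -- the height is at most `n`
  have hup : Q.height ≤ (n : ℕ∞) := by
    have h1 := Ideal.height_le_ringKrullDim_of_ne_top (I := Q) (Ideal.IsPrime.ne_top inferInstance)
    rw [MvPolynomial.ringKrullDim_of_isNoetherianRing, ringKrullDim_eq_zero_of_field, zero_add,
      Nat.card_eq_fintype_card, ← hn] at h1
    exact_mod_cast h1
  have hm : G.card ≤ n := by exact_mod_cast hcard.trans hup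
  -- the padded family of generators
  let e : σ ≃ Fin n := Fintype.equivFin σ
  let eG : Fin G.card ≃ G := G.equivFin.symm
  let g : σ → MvPolynomial σ κ := fun s =>
    if h : (e s : ℕ) < G.card then (eG ⟨e s, h⟩ : MvPolynomial σ κ) else 0
  have hgQ : ∀ s, g s ∈ Q := by
    intro s
    by_cases h : (e s : ℕ) < G.card
    · simp only [g, dif_pos h]
      exact hG _ (eG ⟨e s, h⟩).2
    · simp only [g, dif_neg h]
      exact Q.zero_mem
  have hGg : (G : Set (MvPolynomial σ κ)) ⊆ Set.range g := by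
    intro y hy
    let i : Fin G.card := eG.symm ⟨y, hy⟩
    refine ⟨e.symm ⟨i, i.2.trans_le hm⟩, ?_⟩
    have h1 : ((e (e.symm ⟨i, i.2.trans_le hm⟩) : Fin n) : ℕ) < G.card := by
      rw [Equiv.apply_symm_apply]
      exact i.2
    simp only [g, dif_pos h1]
    have h2 : (⟨((e (e.symm ⟨i, i.2.trans_le hm⟩) : Fin n) : ℕ), h1⟩ : Fin G.card) = i := by
      apply Fin.ext
      simp
    rw [h2]
    simp [i]
  have hgen' : ∀ y ∈ Q, ∃ c, c ∉ Q ∧ ∃ w : σ → MvPolynomial σ κ, c * y = ∑ s, w s * g s := by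
    intro y hy
    obtain ⟨c, hc, hcy⟩ := hgen y hy
    refine ⟨c, hc, ?_⟩
    have h1 := Ideal.span_mono hGg hcy
    obtain ⟨w, hw⟩ := (Ideal.mem_span_range_iff_exists_fun).mp h1
    exact ⟨w, hw.symm⟩
  choose c hc M hM using fun a => hgen' (D a) (hD a)
  -- matrices over the quotient
  let q := Ideal.Quotient.mk Q
  let MM : Matrix σ σ (MvPolynomial σ κ) := Matrix.of fun a s => M a s
  let NN : Matrix σ σ (MvPolynomial σ κ) := Matrix.of fun s b => pderiv b (g s)
  let JJ : Matrix σ σ (MvPolynomial σ κ) := Matrix.of fun a b => pderiv a (D b)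
  have hq0 : ∀ z, q z = 0 ↔ z ∈ Q := fun z => Ideal.Quotient.eq_zero_iff_mem
  have hmat : (Matrix.diagonal c * JJ.transpose).map q = (MM * NN).map q := by
    ext a b
    have e1 : (Matrix.diagonal c * JJ.transpose) a b = c a * pderiv b (D a) := by
      rw [Matrix.diagonal_mul]
      rfl
    have e2 : (MM * NN) a b = ∑ s, M a s * pderiv b (g s) := by
      rw [Matrix.mul_apply]
      rfl
    rw [Matrix.map_apply, Matrix.map_apply, e1, e2]
    have h1 := congrArg (pderiv b) (hM a)
    rw [Derivation.leibniz, map_sum] at h1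
    have h2 := congrArg q h1
    rw [map_add, map_sum, smul_eq_mul, smul_eq_mul, map_mul, map_mul] at h2
    have h3 : q (D a) = 0 := (hq0 _).mpr (hD a)
    rw [h3, zero_mul, add_zero] at h2
    rw [map_mul, h2, map_sum]
    refine Finset.sum_congr rfl fun s _ => ?_
    rw [Derivation.leibniz, map_add, smul_eq_mul, smul_eq_mul, map_mul, map_mul]
    have h4 : q (g s) = 0 := (hq0 _).mpr (hgQ s)
    rw [h4, zero_mul, add_zero]
  have hdet : (∏ a, q (c a)) * q JJ.det = q MM.det * q NN.det := by
    have h1 := congrArg Matrix.det hmat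
    have h2 : ∀ X : Matrix σ σ (MvPolynomial σ κ), (X.map q).det = q X.det := fun X =>
      (RingHom.map_det q X).symm
    rw [h2, h2, Matrix.det_mul, Matrix.det_mul, Matrix.det_diagonal, Matrix.det_transpose,
      map_mul, map_mul, map_prod] at h1
    exact h1
  have hne : (∏ a, q (c a)) * q JJ.det ≠ 0 := by
    refine mul_ne_zero (Finset.prod_ne_zero_iff.mpr fun a _ => ?_) ?_
    · exact fun h => hc a ((hq0 _).mp h)
    · exact fun h => hJ ((hq0 _).mp h)
  rw [hdet] at hne
  have hM0 : MM.det ∉ Q := fun h => (left_ne_zero_of_mul hne) ((hq0 _).mpr h)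
  have hN0 : NN.det ∉ Q := fun h => (right_ne_zero_of_mul hne) ((hq0 _).mpr h)
  refine ⟨?_, ?_⟩
  · intro x hx
    obtain ⟨c', hc', w, hw⟩ := hgen' x hx
    refine ⟨MM.det * c', fun h => ?_, ?_⟩
    · rcases Ideal.IsPrime.mem_or_mem inferInstance h with h | h
      · exact hM0 h
      · exact hc' h
    · rw [mul_assoc, hw, Finset.mul_sum]
      refine Ideal.sum_mem _ fun s _ => ?_
      have h1 : MM.det * (w s * g s) = w s * (MM.det * g s) := by ring
      rw [h1]
      apply Ideal.mul_mem_left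
      have h2 : MM.det * g s = ∑ a, MM.adjugate s a * (c a * D a) := by
        have h3 : (MM.adjugate * MM).mulVec g = MM.det • g := by
          rw [Matrix.adjugate_mul, Matrix.smul_mulVec, Matrix.one_mulVec]
        have h4 := congrFun h3 s
        rw [← Matrix.mulVec_mulVec] at h4
        simp only [Pi.smul_apply, smul_eq_mul] at h4
        rw [← h4]
        simp only [Matrix.mulVec, dotProduct]
        refine Finset.sum_congr rfl fun a _ => ?_
        rw [hM a]
        rfl
      rw [h2]
      refine Ideal.sum_mem _ fun a _ => ?_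
      apply Ideal.mul_mem_left
      apply Ideal.mul_mem_left
      exact Ideal.subset_span ⟨a, rfl⟩
  · rcases Nat.lt_or_ge G.card n with hlt | hge
    · exfalso
      apply hN0
      have h1 : NN.det = 0 := by
        apply Matrix.det_eq_zero_of_row_eq_zero (e.symm ⟨G.card, hlt⟩)
        intro b
        have h2 : g (e.symm ⟨G.card, hlt⟩) = 0 := by
          simp only [g]
          rw [dif_neg]
          rw [Equiv.apply_symm_apply]
          simp
        simp only [NN, Matrix.of_apply, h2, map_zero]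
      rw [h1]
      exact Q.zero_mem
    · exact le_trans (by exact_mod_cast hge) hcard

theorem t_OD1 : Pool.Agent.Q40.OD.S_OD1 := by
  intro κ σ _ _ _ D Q _ hD hJ
  exact jac D Q hD hJ

/-- The same over a discrete valuation ring. -/
theorem jac_dvr {R σ : Type} [CommRing R] [IsDomain R] [IsDiscreteValuationRing R] [Fintype σ]
    [DecidableEq σ] (π : R) (hπ : Irreducible π) (D : σ → MvPolynomial σ R)
    (Q : Ideal (MvPolynomial σ R)) [hQp : Q.IsPrime] (hQ : C π ∈ Q) (hD : ∀ a, D a ∈ Q)
    (hJ : (Matrix.of fun a b => pderiv a (D b)).det ∉ Q) :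
    (∀ x ∈ Q, ∃ c, c ∉ Q ∧ c * x ∈ Ideal.span (insert (C π) (Set.range D))) ∧ Q.IsMaximal ∧
      ((Fintype.card σ + 1 : ℕ) : ℕ∞) ≤ Q.height := by
  classical
  have hmax : (Ideal.span {π} : Ideal R).IsMaximal :=
    PrincipalIdealRing.isMaximal_of_irreducible hπ
  let _ : Field (R ⧸ (Ideal.span {π} : Ideal R)) := Ideal.Quotient.field _
  let f : R →+* R ⧸ (Ideal.span {π} : Ideal R) := Ideal.Quotient.mk _
  let θ : MvPolynomial σ R →+* MvPolynomial σ (R ⧸ (Ideal.span {π} : Ideal R)) :=
    MvPolynomial.map f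
  have hθ : Function.Surjective θ :=
    MvPolynomial.map_surjective f Ideal.Quotient.mk_surjective
  have hker : ∀ x, θ x = 0 ↔ C π ∣ x := by
    intro x
    have h1 := C_dvd_iff_map_hom_eq_zero f π (fun r' => by
      rw [← Ideal.mem_span_singleton]
      exact Ideal.Quotient.eq_zero_iff_mem) x
    exact h1.symm
  have hkQ : RingHom.ker θ ≤ Q := by
    intro x hx
    obtain ⟨y, rfl⟩ := (hker x).mp hx
    exact Q.mul_mem_right _ hQ
  have hQ' : (Q.map θ).IsPrime := Ideal.map_isPrime_of_surjective hθ hkQ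
  have hcomap : (Q.map θ).comap θ = Q := by
    rw [Ideal.comap_map_of_surjective θ hθ]
    exact sup_eq_left.2 (by
      intro x hx
      exact hkQ (by simpa using hx))
  have hmem : ∀ x, θ x ∈ Q.map θ ↔ x ∈ Q := by
    intro x
    rw [← Ideal.mem_comap, hcomap]
  have hJ' : (Matrix.of fun a b => pderiv a (θ (D b))).det ∉ Q.map θ := by
    have h1 : (Matrix.of fun a b => pderiv a (θ (D b))) =
        (Matrix.of fun a b => pderiv a (D b) : Matrix σ σ (MvPolynomial σ R)).map θ := by
      ext1 a b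
      simp only [Matrix.of_apply, Matrix.map_apply, θ, pderiv_map]
    have h2 : ((Matrix.of fun a b => pderiv a (D b) : Matrix σ σ (MvPolynomial σ R)).map θ).det =
        θ (Matrix.of fun a b => pderiv a (D b)).det := (RingHom.map_det θ _).symm
    rw [h1, h2, hmem]
    exact hJ
  obtain ⟨hA, hB⟩ := jac (fun a => θ (D a)) (Q.map θ) (fun a => (hmem _).mpr (hD a)) hJ'
  have hht : ((Fintype.card σ + 1 : ℕ) : ℕ∞) ≤ Q.height := by
    have h1 := height_comap_ge θ hθ (Fintype.card σ) (Q.map θ) hB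
    rw [hcomap] at h1
    have hkp : (RingHom.ker θ).IsPrime := RingHom.ker_isPrime θ
    have h2 : (1 : ℕ∞) ≤ (RingHom.ker θ).height := by
      rw [Order.one_le_iff_ne_zero]
      intro h3
      rw [Ideal.height_eq_zero_iff_eq_bot] at h3
      have h4 : C π ∈ RingHom.ker θ := by
        rw [RingHom.mem_ker, hker]
      rw [h3, Ideal.mem_bot] at h4
      exact hπ.ne_zero (C_injective σ R (by rw [h4, C_0]))
    calc ((Fintype.card σ + 1 : ℕ) : ℕ∞) = 1 + ((Fintype.card σ : ℕ) : ℕ∞) := by
          push_cast; ring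
      _ ≤ (RingHom.ker θ).height + (Fintype.card σ : ℕ) := by gcongr
      _ ≤ Q.height := h1
  refine ⟨?_, ?_, hht⟩
  · intro x hx
    obtain ⟨c', hc', hcx⟩ := hA (θ x) ((hmem x).mpr hx)
    obtain ⟨c, rfl⟩ := hθ c'
    refine ⟨c, fun h => hc' ((hmem c).mpr h), ?_⟩
    have hr : (Set.range fun a => θ (D a)) = θ '' Set.range D := by
      rw [← Set.range_comp]
      rfl
    rw [hr, ← Ideal.map_span, ← map_mul, Ideal.mem_map_iff_of_surjective θ hθ] at hcx
    obtain ⟨y, hy, hyx⟩ := hcx
    have h1 : θ (c * x - y) = 0 := by rw [map_sub, hyx, sub_self]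
    obtain ⟨z, hz⟩ := (hker _).mp h1
    have h2 : c * x = y + z * C π := by
      rw [mul_comm z, ← hz]
      ring
    rw [h2]
    apply Ideal.add_mem
    · exact Ideal.span_mono (Set.subset_insert _ _) hy
    · exact Ideal.mul_mem_left _ _ (Ideal.subset_span (Set.mem_insert _ _))
  · have hdim : ringKrullDim (MvPolynomial σ R) = ((Fintype.card σ + 1 : ℕ) : ℕ∞) := by
      rw [MvPolynomial.ringKrullDim_of_isNoetherianRing,
        IsDiscreteValuationRing.ringKrullDim_eq_one, Nat.card_eq_fintype_card]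
      push_cast
      rw [add_comm]
    obtain ⟨m, hm, hQm⟩ := Ideal.exists_le_maximal Q hQp.ne_top
    rcases lt_or_eq_of_le hQm with h | h
    · exfalso
      have h1 := Ideal.height_add_one_le_of_lt_of_isPrime h
      have h2 := Ideal.height_le_ringKrullDim_of_ne_top (I := m) hm.ne_top
      rw [hdim] at h2
      have h3 : m.height ≤ ((Fintype.card σ + 1 : ℕ) : ℕ∞) := by exact_mod_cast h2
      have h4 : ((Fintype.card σ + 1 : ℕ) : ℕ∞) + 1 ≤ ((Fintype.card σ + 1 : ℕ) : ℕ∞) :=
        le_trans (le_trans (by gcongr) h1) h3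
      have h5 : Fintype.card σ + 1 + 1 ≤ Fintype.card σ + 1 := by exact_mod_cast h4
      omega
    · rw [h]
      exact hm

theorem t_OD2 : Pool.Agent.Q40.OD.S_OD2 := by
  intro R σ _ _ _ _ _ π hπ D Q _ hQ hD hJ
  exact jac_dvr π hπ D Q hQ hD hJ

end Pool.Agent.Q111.OD
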