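import Pool.Agent.Q111.OD.OD12

/-! # Project OD, job OD-3: normal form at a nondegenerate point -/

set_option autoImplicit false

namespace Pool.Agent.Q111.OD

open MvPolynomial Pool.Agent.Q40.OD

section second

variable {R σ : Type} [CommRing R]

/-- Second derivative of a product of three factors, two of them in the ideal. -/
theorem snd_prod (Q : Ideal (MvPolynomial σ R)) (x y z : MvPolynomial σ R) (hy : y ∈ Q)
    (hz : z ∈ Q) (e f : σ) :
    Ideal.Quotient.mk Q (pderiv e (pderiv f (x * y * z))) =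
      Ideal.Quotient.mk Q x * (Ideal.Quotient.mk Q (pderiv e y) * Ideal.Quotient.mk Q (pderiv f z) +
        Ideal.Quotient.mk Q (pderiv f y) * Ideal.Quotient.mk Q (pderiv e z)) := by
  have hy0 : Ideal.Quotient.mk Q y = 0 := Ideal.Quotient.eq_zero_iff_mem.mpr hy
  have hz0 : Ideal.Quotient.mk Q z = 0 := Ideal.Quotient.eq_zero_iff_mem.mpr hz
  simp only [Derivation.leibniz, smul_eq_mul, map_add, map_mul, hy0, hz0]
  ring

theorem snd_two (Q : Ideal (MvPolynomial σ R)) (x y : MvPolynomial σ R) (hy : y ∈ Q)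
    (hd : ∀ a, pderiv a y ∈ Q) (e f : σ) :
    Ideal.Quotient.mk Q (pderiv e (pderiv f (x * y))) =
      Ideal.Quotient.mk Q x * Ideal.Quotient.mk Q (pderiv e (pderiv f y)) := by
  have hy0 : Ideal.Quotient.mk Q y = 0 := Ideal.Quotient.eq_zero_iff_mem.mpr hy
  have he0 : Ideal.Quotient.mk Q (pderiv e y) = 0 := Ideal.Quotient.eq_zero_iff_mem.mpr (hd e)
  have hf0 : Ideal.Quotient.mk Q (pderiv f y) = 0 := Ideal.Quotient.eq_zero_iff_mem.mpr (hd f)
  simp only [Derivation.leibniz, smul_eq_mul, map_add, map_mul, hy0, he0, hf0]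
  ring

theorem pderiv_mul_C (x : MvPolynomial σ R) (r : R) (e : σ) :
    pderiv e (x * C r) = pderiv e x * C r := by
  rw [Derivation.leibniz, pderiv_C, smul_eq_mul, smul_eq_mul, mul_zero, zero_add, mul_comm]

end second

theorem normal_form (h2 : S_OD2) {R σ : Type} [CommRing R] [IsDomain R]
    [IsDiscreteValuationRing R] [Fintype σ]
    [DecidableEq σ] (π : R) (hπ : Irreducible π) (g : MvPolynomial σ R)
    (Q : Ideal (MvPolynomial σ R)) [hQp : Q.IsPrime] (hQ : C π ∈ Q) (hg : g ∈ Q)
    (hD : ∀ a, pderiv a g ∈ Q) (hH : (Hess g).det ∉ Q) (N : ℕ)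
    (hN : C π ^ N ∈ Ideal.span (insert g (Set.range fun a => pderiv a g))) :
    ∃ (v : ℕ) (c u : MvPolynomial σ R) (q : σ → σ → MvPolynomial σ R), 1 ≤ v ∧ v ≤ N ∧ c ∉ Q ∧
      u ∉ Q ∧ (Matrix.of fun a b => q a b + q b a).det ∉ Q ∧
      c * g = u * C π ^ v + ∑ a, ∑ b, q a b * pderiv a g * pderiv b g := by
  classical
  obtain ⟨hgen, -, hht⟩ := h2 π hπ (fun a => pderiv a g) Q hQ hD hH
  set D : σ → MvPolynomial σ R := fun a => pderiv a g with hDdef
  set I : Ideal (MvPolynomial σ R) := Ideal.span (Set.range D) with hI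
  have hIQ : I ≤ Q := by
    rw [hI, Ideal.span_le]
    rintro _ ⟨a, rfl⟩
    exact hD a
  have hDI : ∀ a, D a ∈ I := fun a => Ideal.subset_span ⟨a, rfl⟩
  have hmul : ∀ x y : MvPolynomial σ R, x ∉ Q → y ∉ Q → x * y ∉ Q := by
    intro x y hx hy h
    rcases hQp.mem_or_mem h with h | h
    · exact hx h
    · exact hy h
  -- (1)
  have h1 : ∀ (j : ℕ) (c : MvPolynomial σ R), c ∉ Q → c * C π ^ j ∉ I := by
    intro j c hc hmem
    have hmin : Q ∈ I.minimalPrimes := by
      refine ⟨⟨hQp, hIQ⟩, ?_⟩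
      rintro P ⟨hP, hIP⟩ hPQ x hx
      have h3 : C π ∈ P := by
        rcases hP.mem_or_mem (hIP hmem) with h | h
        · exact absurd (hPQ h) hc
        · exact hP.mem_of_pow_mem _ h
      obtain ⟨c', hc', hcx⟩ := hgen x hx
      have h4 : c' * x ∈ P := by
        refine (Ideal.span_le.mpr ?_) hcx
        rintro y (rfl | ⟨a, rfl⟩)
        · exact h3
        · exact hIP (hDI a)
      rcases hP.mem_or_mem h4 with h | h
      · exact absurd (hPQ h) hc'
      · exact h
    have h5 : Q.height ≤ ((Finset.univ.image D).card : ℕ∞) := by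
      apply Ideal.height_le_card_of_mem_minimalPrimes_span_finset (s := Finset.univ.image D)
      rw [Finset.coe_image, Finset.coe_univ, Set.image_univ]
      exact hmin
    have h6 : (Finset.univ.image D).card ≤ Fintype.card σ :=
      Finset.card_image_le.trans (le_of_eq Finset.card_univ)
    have h7 : ((Fintype.card σ + 1 : ℕ) : ℕ∞) ≤ ((Fintype.card σ : ℕ) : ℕ∞) :=
      hht.trans (h5.trans (by exact_mod_cast h6))
    have h8 : Fintype.card σ + 1 ≤ Fintype.card σ := by exact_mod_cast h7
    omega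
  -- (2)
  let P : ℕ → Prop := fun v => ∃ c, c ∉ Q ∧ ∃ u, c * g - u * C π ^ v ∈ I
  have hP1 : P 1 := by
    obtain ⟨c, hc, hcg⟩ := hgen g hg
    obtain ⟨a, z, hz, haz⟩ := Ideal.mem_span_insert.mp hcg
    refine ⟨c, hc, a, ?_⟩
    rw [haz, pow_one, add_sub_cancel_left]
    exact hz
  have hPN : ∀ v, P v → v ≤ N := by
    rintro v ⟨c, hc, u, hu⟩
    by_contra hcon
    push Not at hcon
    obtain ⟨w, z, hz, hwz⟩ := Ideal.mem_span_insert.mp hN
    obtain ⟨k, rfl⟩ := Nat.exists_eq_add_of_lt hcon
    refine h1 N (c - w * u * C π ^ (k + 1)) ?_ ?_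
    · intro h
      apply hc
      have h3 : w * u * C π ^ (k + 1) ∈ Q :=
        Q.mul_mem_left _ (Ideal.pow_mem_of_mem Q hQ _ (Nat.succ_pos k))
      have h4 := Q.add_mem h h3
      rwa [sub_add_cancel] at h4
    · have h3 : (c - w * u * C π ^ (k + 1)) * C π ^ N =
          w * (c * g - u * C π ^ (N + k + 1)) + c * z := by
        have h4 : c * C π ^ N = c * (w * g + z) := by rw [hwz]
        have h5 : (C π : MvPolynomial σ R) ^ (N + k + 1) = C π ^ (k + 1) * C π ^ N := by
          rw [← pow_add]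
          congr 1
          omega
        rw [sub_mul, h4, h5]
        ring
      rw [h3]
      exact I.add_mem (I.mul_mem_left _ hu) (I.mul_mem_left _ hz)
  let v := Nat.findGreatest P N
  have hv1 : 1 ≤ v := Nat.le_findGreatest (hPN 1 hP1) hP1
  have hvN : v ≤ N := Nat.findGreatest_le N
  have hPv : P v := Nat.findGreatest_spec (hPN 1 hP1) hP1
  have hPv' : ¬ P (v + 1) := by
    intro h
    have h3 := Nat.le_findGreatest (hPN _ h) h
    change v + 1 ≤ v at h3
    omega
  obtain ⟨c, hc, u, hcu⟩ := hPv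
  have hu : u ∉ Q := by
    intro hu
    obtain ⟨c', hc', hcu'⟩ := hgen u hu
    obtain ⟨a, z, hz, haz⟩ := Ideal.mem_span_insert.mp hcu'
    apply hPv'
    refine ⟨c' * c, hmul _ _ hc' hc, a, ?_⟩
    have h3 : c' * c * g - a * C π ^ (v + 1) = c' * (c * g - u * C π ^ v) + z * C π ^ v := by
      have h4 : c' * u * C π ^ v = (a * C π + z) * C π ^ v := by rw [haz]
      have h5 : c' * (c * g - u * C π ^ v) = c' * c * g - c' * u * C π ^ v := by ring
      rw [h5, h4]
      ring
    rw [h3]
    exact I.add_mem (I.mul_mem_left _ hcu) (I.mul_mem_right _ hz)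
  -- (3)
  obtain ⟨l, hl⟩ := Ideal.mem_span_range_iff_exists_fun.mp hcu
  have hCv : (C π : MvPolynomial σ R) ^ v = C (π ^ v) := by rw [C_pow]
  have hz : ∀ b, ∃ m, c * ∑ a, Hess g b a * l a - m * C π ^ v ∈ I := by
    intro b
    have h3 : c * g = u * C (π ^ v) + ∑ a, l a * D a := by
      rw [hl, hCv]
      ring
    have h4 := congrArg (pderiv b) h3
    rw [Derivation.leibniz, map_add, map_sum, pderiv_mul_C, smul_eq_mul, smul_eq_mul] at h4
    have h5 : ∀ a, pderiv b (l a * D a) = Hess g b a * l a + pderiv b (l a) * D a := by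
      intro a
      rw [Derivation.leibniz, smul_eq_mul, smul_eq_mul]
      have h6 : pderiv b (D a) = Hess g b a := rfl
      rw [h6]
      ring
    simp only [h5, Finset.sum_add_distrib] at h4
    refine ⟨pderiv b c * u - c * pderiv b u, ?_⟩
    have h7 : c * ∑ a, Hess g b a * l a - (pderiv b c * u - c * pderiv b u) * C π ^ v =
        pderiv b c * (c * g - u * C π ^ v) + c * c * D b - c * ∑ a, pderiv b (l a) * D a := by
      have h8 : ∑ a, Hess g b a * l a = c * pderiv b g + g * pderiv b c -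
          pderiv b u * C (π ^ v) - ∑ a, pderiv b (l a) * D a := by
        rw [h4]
        ring
      rw [h8, hCv]
      ring
    rw [h7]
    refine I.sub_mem (I.add_mem (I.mul_mem_left _ hcu) (I.mul_mem_left _ (hDI b)))
      (I.mul_mem_left _ (I.sum_mem fun a _ => I.mul_mem_left _ (hDI a)))
  choose m hm using hz
  set h := (Hess g).det with hh
  have hla : ∀ a, ∃ M, ∃ w : σ → MvPolynomial σ R,
      c * h * l a = M * C π ^ v + ∑ b, w b * D b := by
    intro a
    have h3 : h * l a = ∑ b, (Hess g).adjugate a b * ∑ a', Hess g b a' * l a' := by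
      have h4 : ((Hess g).adjugate * Hess g).mulVec l = h • l := by
        rw [Matrix.adjugate_mul, Matrix.smul_mulVec, Matrix.one_mulVec]
      have h5 := congrFun h4 a
      rw [← Matrix.mulVec_mulVec] at h5
      simp only [Pi.smul_apply, smul_eq_mul] at h5
      rw [← h5]
      rfl
    refine ⟨∑ b, (Hess g).adjugate a b * m b, ?_⟩
    have h6 : c * h * l a - (∑ b, (Hess g).adjugate a b * m b) * C π ^ v ∈ I := by
      have h7 : c * h * l a - (∑ b, (Hess g).adjugate a b * m b) * C π ^ v =
          ∑ b, (Hess g).adjugate a b * (c * ∑ a', Hess g b a' * l a' - m b * C π ^ v) := by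
        rw [mul_assoc, h3, Finset.mul_sum, Finset.sum_mul, ← Finset.sum_sub_distrib]
        refine Finset.sum_congr rfl fun b _ => ?_
        ring
      rw [h7]
      exact I.sum_mem fun b _ => I.mul_mem_left _ (hm b)
    obtain ⟨w, hw⟩ := Ideal.mem_span_range_iff_exists_fun.mp h6
    refine ⟨w, ?_⟩
    rw [hw]
    ring
  choose M q hMq using hla
  have hcg : c * h * c * g = (c * h * u + ∑ a, M a * D a) * C π ^ v +
      ∑ a, ∑ b, q a b * D a * D b := by
    have h3 : c * g = u * C π ^ v + ∑ a, l a * D a := by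
      rw [hl]
      ring
    have h4 : c * h * c * g = c * h * (c * g) := by ring
    rw [h4, h3, mul_add, Finset.mul_sum, add_mul, add_assoc, Finset.sum_mul,
      ← Finset.sum_add_distrib]
    congr 1
    · ring
    · refine Finset.sum_congr rfl fun a _ => ?_
      have h5 : c * h * (l a * D a) = (c * h * l a) * D a := by ring
      rw [h5, hMq a, add_mul, Finset.sum_mul]
      congr 1
      · ring
      · refine Finset.sum_congr rfl fun b _ => ?_
        ring
  have hc' : c * h * c ∉ Q := hmul _ _ (hmul _ _ hc hH) hc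
  have hu' : c * h * u + ∑ a, M a * D a ∉ Q := by
    intro h3
    have h4 : ∑ a, M a * D a ∈ Q := Q.sum_mem fun a _ => Q.mul_mem_left _ (hD a)
    have h5 := Q.sub_mem h3 h4
    rw [add_sub_cancel_right] at h5
    exact hmul _ _ (hmul _ _ hc hH) hu h5
  refine ⟨v, c * h * c, c * h * u + ∑ a, M a * D a, q, hv1, hvN, hc', hu', ?_, hcg⟩
  -- (4)
  generalize c * h * c = c1 at hcg hc'
  generalize c * h * u + ∑ a, M a * D a = u1 at hcg hu'
  let mk := Ideal.Quotient.mk Q
  have hmk0 : ∀ z, mk z = 0 ↔ z ∈ Q := fun z => Ideal.Quotient.eq_zero_iff_mem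
  let QQ : Matrix σ σ (MvPolynomial σ R) := Matrix.of fun a b => q a b + q b a
  have hmat : (c1 • Hess g).map mk = (Hess g * QQ * (Hess g).transpose).map mk := by
    ext e f
    have e1 : (c1 • Hess g) e f = c1 * pderiv e (pderiv f g) := rfl
    have e2 : (Hess g * QQ * (Hess g).transpose) e f =
        ∑ b, (∑ a, Hess g e a * QQ a b) * Hess g f b := by
      rw [Matrix.mul_apply]
      refine Finset.sum_congr rfl fun b _ => ?_
      rw [Matrix.mul_apply]
      rfl
    rw [Matrix.map_apply, Matrix.map_apply, e1, e2]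
    have h31 : mk (pderiv e (pderiv f (c1 * g))) = mk c1 * mk (pderiv e (pderiv f g)) :=
      snd_two Q c1 g hg hD e f
    have h3 : mk (pderiv e (pderiv f (c1 * g))) =
        mk (pderiv e (pderiv f (u1 * C π ^ v + ∑ a, ∑ b, q a b * D a * D b))) := by
      rw [hcg]
    rw [h31, hCv, map_add (pderiv f), map_add (pderiv e), map_add mk, pderiv_mul_C,
      pderiv_mul_C] at h3
    have h4 : mk (pderiv e (pderiv f u1) * C (π ^ v)) = 0 := by
      rw [hmk0]
      apply Q.mul_mem_left
      rw [C_pow]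
      exact Ideal.pow_mem_of_mem Q hQ _ hv1
    have h5 : mk (pderiv e (pderiv f (∑ a, ∑ b, q a b * D a * D b))) =
        ∑ a, ∑ b, mk (q a b) * (mk (Hess g e a) * mk (Hess g f b) +
          mk (Hess g f a) * mk (Hess g e b)) := by
      simp only [map_sum]
      refine Finset.sum_congr rfl fun a _ => Finset.sum_congr rfl fun b _ => ?_
      exact snd_prod Q (q a b) (D a) (D b) (hD a) (hD b) e f
    change mk c1 * mk (pderiv e (pderiv f g)) = mk (pderiv e (pderiv f u1) * C (π ^ v)) +
      mk (pderiv e (pderiv f (∑ a, ∑ b, q a b * D a * D b))) at h3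
    rw [h4, zero_add, h5] at h3
    rw [map_mul, h3]
    simp only [map_sum, map_mul, Finset.sum_mul]
    have h6 : ∀ a b, mk (QQ a b) = mk (q a b) + mk (q b a) := fun a b => map_add mk _ _
    simp only [h6, mul_add, add_mul, Finset.sum_add_distrib]
    congr 1
    · rw [Finset.sum_comm]
      refine Finset.sum_congr rfl fun b _ => Finset.sum_congr rfl fun a _ => ?_
      ring
    · refine Finset.sum_congr rfl fun b _ => Finset.sum_congr rfl fun a _ => ?_
      ring
  have hdet := congrArg Matrix.det hmat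
  have h3 : ∀ X : Matrix σ σ (MvPolynomial σ R), (X.map mk).det = mk X.det := fun X =>
    (RingHom.map_det mk X).symm
  rw [h3, h3, Matrix.det_smul, Matrix.det_mul, Matrix.det_mul] at hdet
  intro hcon
  have h4 : mk (h * QQ.det * (Hess g).transpose.det) = 0 := by
    rw [hmk0]
    exact Q.mul_mem_right _ (Q.mul_mem_left _ hcon)
  rw [h4, hmk0] at hdet
  rcases hQp.mem_or_mem hdet with h5 | h5
  · exact hc' (hQp.mem_of_pow_mem _ h5)
  · exact hH h5

theorem s_od3 (h2 : S_OD2) : S_OD3 := by
  intro R σ _ _ _ _ _ π hπ g Q _ hQ hg hD hH N hN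
  exact normal_form h2 π hπ g Q hQ hg hD hH N hN

end Pool.Agent.Q111.OD
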